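import Mathlib
import Pool.Agent.Lib.MP_ccba9a_nt.Weyl
import Pool.Agent.WeylTwo.Spec
import Pool.Agent.WeylTwo.Pi
import Pool.Agent.WeylTwo.Lf
import Pool.Agent.WeylTwo.La
import Pool.Agent.WeylTwo.Lb
import Pool.Agent.WeylTwo.End

/-! # Quadratic Weyl sums: the conjectured bound fails for every exponent `0 < s < 3` -/

namespace Pool.Agent.Results.MP_ccba9a_nt.QuadraticAllExponents

open MeasureTheory

/-- Let `0 < s < 3`, `c > 0` and `0 < ε < min (s/6) (5 (3-s)/6)`. Then there is no constant `C` such that for all `X ≥ 1` and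
all measurable `B ⊆ [0,1)^2` with `mes B ≥ c X^(-1/2)` the integral over `B` of `|∑_{x ≤ X} e(α_0 x + α_1 x^2)|^(2s)` is at
most `C X^ε (X^s mes B + X^(2s-3))`. (For `k = 2` the exponents of the problem are `1 - k(k+1)/4 = -1/2` and
`2s - k(k+1)/2 = 2s - 3`.) -/
theorem result (s c ε : ℝ) (hs : 0 < s) (hs3 : s < 3) (hc : 0 < c) (hε : 0 < ε)
    (h1 : ε < s / 6) (h2 : ε < 5 * (3 - s) / 6) :
    ¬ ∃ C : ℝ, ∀ X : ℕ, 1 ≤ X → ∀ B : Set (Fin 2 → ℝ), MeasurableSet B →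
      B ⊆ Set.pi Set.univ (fun _ => Set.Ico (0:ℝ) 1) →
      c * (X : ℝ) ^ (-(1/2) : ℝ) ≤ (volume B).toReal →
      ∫ α in B, ‖∑ x ∈ Finset.Icc 1 X, Complex.exp (2 * (Real.pi : ℂ) * Complex.I *
          (((α 0 : ℝ) : ℂ) * (x : ℂ) + ((α 1 : ℝ) : ℂ) * (x : ℂ) ^ 2))‖ ^ (2 * s) ≤
        C * (X : ℝ) ^ ε * ((X : ℝ) ^ s * (volume B).toReal + (X : ℝ) ^ (2 * s - 3)) := by
  rintro ⟨C, hC⟩
  refine Pool.Agent.WeylTwo.tEnd Pool.Agent.WeylTwo.tPi Pool.Agent.WeylTwo.tLa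
    (Pool.Agent.WeylTwo.tLb Pool.Agent.WeylTwo.tLf) s c ε hs hs3 hc hε (by linarith) (by linarith)
    ⟨C, fun X hX B hB hBs hv => ?_⟩
  have h := hC X hX B hB hBs hv
  simp_rw [← Pool.Agent.Lib.MP_ccba9a_nt.F_eq] at h
  exact h

end Pool.Agent.Results.MP_ccba9a_nt.QuadraticAllExponents
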